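import Mathlib
import Pool.Agent.V11269.SalemExample

/-!
There is an algebraic integer `α > 1` for which `S(α) = {limsup ‖ξ α^n‖ : ξ real}` is not closed.
-/

namespace Pool.Agent.Results.MP_b81a64_nt.NotClosed

open Polynomial Filter Topology

/-- The distance from `x` to the nearest integer. -/
noncomputable def distInt (x : ℝ) : ℝ := |x - round x|

/-- `S(α) = {limsup ‖ξ α^n‖ : ξ real}`, `n` running over the positive integers. -/
noncomputable def S (α : ℝ) : Set ℝ :=
  {v | ∃ ξ : ℝ, v = limsup (fun n : ℕ => distInt (ξ * α ^ (n + 1))) atTop}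

lemma S_eq (α : ℝ) : S α = V11269.Salem.spec α := by
  ext v
  have h : ∀ ξ : ℝ, limsup (fun n : ℕ => distInt (ξ * α ^ (n + 1))) atTop =
      limsup (fun n : ℕ => |ξ * α ^ n - round (ξ * α ^ n)|) atTop := fun ξ =>
    V11269.Salem.limsup_shift (fun n : ℕ => |ξ * α ^ n - round (ξ * α ^ n)|) 1
  simp only [S, V11269.Salem.spec, Set.mem_ofPred_eq, h]

/-- There is an algebraic integer `α > 1`, in fact a root of `X^4 - X^3 - X^2 - X + 1`, for which
`S(α)` is not closed. -/
theorem result : ∃ α : ℝ, 1 < α ∧ IsIntegral ℤ α ∧ α ^ 4 - α ^ 3 - α ^ 2 - α + 1 = 0 ∧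
    ¬ IsClosed (S α) := by
  refine ⟨V11269.Salem.α₀, V11269.Salem.α₀_gt, V11269.Salem.α₀_int, ?_, ?_⟩
  · rw [V11269.Salem.factor V11269.Salem.y₁ V11269.Salem.y₂ _ V11269.Salem.y_add
      V11269.Salem.y_mul, V11269.Salem.α₀_quad, zero_mul]
  · rw [S_eq]
    exact V11269.Salem.not_closed V11269.Salem.isSalem_α₀

end Pool.Agent.Results.MP_b81a64_nt.NotClosed
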